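import Pool.Agent.Lib_0bd5b4.Reflexive

open Pool.Agent.Lib0bd5b4

namespace Pool.Agent.Results.MP_0bd5b4_an.CommutatorSpectrum

universe u v w

/-- The map `φ : B(X) → B(Y)` preserves the spectrum of commutators:
`σ([φ(T),φ(S)]) = σ([T,S])` for all bounded operators `T`, `S`. -/
structure PreservesSpectrum {X : Type u} [NormedAddCommGroup X] [NormedSpace ℂ X]
    {Y : Type v} [NormedAddCommGroup Y] [NormedSpace ℂ Y]
    (φ : (X →L[ℂ] X) → (Y →L[ℂ] Y)) : Prop where
  spectrum_eq : ∀ T S : X →L[ℂ] X,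
    spectrum ℂ (φ T * φ S - φ S * φ T) = spectrum ℂ (T * S - S * T)

/-- A bounded operator `T` is commutator-symmetric if, for every bounded operator `S`, the
spectrum of the commutator `T S - S T` is invariant under `z ↦ -z`. -/
structure CommutatorSymmetric {X : Type u} [NormedAddCommGroup X] [NormedSpace ℂ X]
    (T : X →L[ℂ] X) : Prop where
  neg_mem : ∀ S : X →L[ℂ] X, ∀ z ∈ spectrum ℂ (T * S - S * T), -z ∈ spectrum ℂ (T * S - S * T)

/-- A choice of signs `ε(T) ∈ {1,-1}` that is constant on the set of operators which are not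
commutator-symmetric. -/
structure AdmissibleSign {X : Type u} [NormedAddCommGroup X] [NormedSpace ℂ X]
    (ε : (X →L[ℂ] X) → ℂ) : Prop where
  sign : ∀ T, ε T = 1 ∨ ε T = -1
  constant : ∀ T S, ¬ CommutatorSymmetric T → ¬ CommutatorSymmetric S → ε T = ε S

/-- `φ(T) = ε(T) A T A⁻¹ + η(T)` for all `T`, for some linear homeomorphism `A : X → Y`. -/
structure DirectForm {X : Type u} [NormedAddCommGroup X] [NormedSpace ℂ X]
    {Y : Type v} [NormedAddCommGroup Y] [NormedSpace ℂ Y]
    (φ : (X →L[ℂ] X) → (Y →L[ℂ] Y)) (ε η : (X →L[ℂ] X) → ℂ) : Prop where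
  exists_equiv : ∃ A : X ≃L[ℂ] Y, ∀ T y, φ T y = ε T • A (T (A.symm y)) + η T • y

/-- `X` is reflexive and `φ(T) = i ε(T) A T* A⁻¹ + η(T)` for all `T`, for some linear
homeomorphism `A : X* → Y`, where `T* f = f ∘ T`. -/
structure AdjointForm {X : Type u} [NormedAddCommGroup X] [NormedSpace ℂ X]
    {Y : Type v} [NormedAddCommGroup Y] [NormedSpace ℂ Y]
    (φ : (X →L[ℂ] X) → (Y →L[ℂ] Y)) (ε η : (X →L[ℂ] X) → ℂ) : Prop where
  reflexive : ∀ ξ : StrongDual ℂ (StrongDual ℂ X), ∃ x : X, ∀ f, ξ f = f x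
  exists_equiv : ∃ A : StrongDual ℂ X ≃L[ℂ] Y, ∀ T y,
    φ T y = (Complex.I * ε T) • A ((A.symm y).comp T) + η T • y

/-- `T² = p T + q` for some complex numbers `p`, `q`. -/
structure Quadratic {X : Type u} [NormedAddCommGroup X] [NormedSpace ℂ X]
    (T : X →L[ℂ] X) : Prop where
  exists_eq : ∃ p q : ℂ, T * T = p • T + q • 1

/-- `T² = p T + q` for some complex numbers `p`, `q` with `p² + 4 q ≠ 0`. -/
structure QuadraticDistinct {X : Type u} [NormedAddCommGroup X] [NormedSpace ℂ X]
    (T : X →L[ℂ] X) : Prop where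
  exists_eq : ∃ p q : ℂ, p ^ 2 + 4 * q ≠ 0 ∧ T * T = p • T + q • 1

/-- `T` is the sum of a scalar and a compact operator of square zero. -/
structure ScalarPlusCompactSquareZero {X : Type u} [NormedAddCommGroup X] [NormedSpace ℂ X]
    (T : X →L[ℂ] X) : Prop where
  exists_eq : ∃ (a : ℂ) (N : X →L[ℂ] X), T = a • 1 + N ∧ N * N = 0 ∧ IsCompactOperator N

/-- Complete description of the surjective maps `φ : B(X) → B(Y)` preserving the spectrum of
commutators, for arbitrary complex Banach spaces `X` and `Y`, together with a description of the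
commutator-symmetric operators on which the sign is free. -/
theorem result :
    -- the description of the maps
    (∀ (X : Type u) [NormedAddCommGroup X] [NormedSpace ℂ X] [CompleteSpace X]
      (Y : Type v) [NormedAddCommGroup Y] [NormedSpace ℂ Y] [CompleteSpace Y]
      (φ : (X →L[ℂ] X) → (Y →L[ℂ] Y)), Function.Surjective φ →
      (PreservesSpectrum φ ↔ ∃ ε η : (X →L[ℂ] X) → ℂ,
        AdmissibleSign ε ∧ (DirectForm φ ε η ∨ AdjointForm φ ε η))) ∧
    -- commutator-symmetric operators on Banach spaces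
    (∀ (X : Type u) [NormedAddCommGroup X] [NormedSpace ℂ X] [CompleteSpace X] (T : X →L[ℂ] X),
      (CommutatorSymmetric T → Quadratic T) ∧
      (QuadraticDistinct T ∨ ScalarPlusCompactSquareZero T → CommutatorSymmetric T) ∧
      (FiniteDimensional ℂ X → Quadratic T → CommutatorSymmetric T)) ∧
    -- commutator-symmetric operators on Hilbert spaces
    (∀ (H : Type w) [NormedAddCommGroup H] [InnerProductSpace ℂ H] [CompleteSpace H]
      (T : H →L[ℂ] H),
      CommutatorSymmetric T ↔ QuadraticDistinct T ∨ ScalarPlusCompactSquareZero T) := by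
  have hcs : ∀ {X : Type u} [NormedAddCommGroup X] [NormedSpace ℂ X] (T : X →L[ℂ] X),
      CommutatorSymmetric T ↔ CommSymm T := fun T => ⟨fun h => h.neg_mem, fun h => ⟨h⟩⟩
  have hcs' : ∀ {X : Type w} [NormedAddCommGroup X] [NormedSpace ℂ X] (T : X →L[ℂ] X),
      CommutatorSymmetric T ↔ CommSymm T := fun T => ⟨fun h => h.neg_mem, fun h => ⟨h⟩⟩
  refine ⟨?_, ?_, ?_⟩
  · intro X _ _ _ Y _ _ _ φ hφ
    have hmain := main_iff φ hφ
    constructor
    · rintro ⟨h⟩
      obtain ⟨ε, η, h1, h2, h3⟩ := hmain.mp h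
      refine ⟨ε, η, ⟨fun T => sign_cases (h1 T), fun T S hT hS =>
        h2 T S (fun h => hT ((hcs T).mpr h)) (fun h => hS ((hcs S).mpr h))⟩, ?_⟩
      rcases h3 with ⟨A, hA⟩ | ⟨A, hA⟩
      · left
        refine ⟨A, fun T y => ?_⟩
        rw [hA T]
        rfl
      · right
        refine ⟨reflexive_of_surj φ hφ A _ _ hA, A, fun T y => ?_⟩
        rw [hA T]
        rfl
    · rintro ⟨ε, η, ⟨h1, h2⟩, h3⟩
      refine ⟨hmain.mpr ⟨ε, η, fun T => ?_, fun T S hT hS =>
        h2 T S (fun h => hT ((hcs T).mp h)) (fun h => hS ((hcs S).mp h)), ?_⟩⟩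
      · rcases h1 T with h | h
        · rw [h, one_mul]
        · rw [h, neg_mul_neg, one_mul]
      · rcases h3 with ⟨A, hA⟩ | ⟨-, A, hA⟩
        · left
          refine ⟨A, fun T => ?_⟩
          ext y
          rw [hA T y]
          rfl
        · right
          refine ⟨A, fun T => ?_⟩
          ext y
          rw [hA T y]
          rfl
  · intro X _ _ _ T
    rw [hcs T]
    refine ⟨fun h => ⟨CommSymm.isQuad h⟩, ?_, ?_⟩
    · rintro (⟨p, q, hd, hpq⟩ | ⟨a, N, rfl, h1, h2⟩)
      · apply commSymm_of_quad_ne hpq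
        intro h0
        apply hd
        linear_combination (4 : ℂ) * h0
      · refine commSymm_of_compact (a := a) ?_ ?_
        · rw [add_sub_cancel_left, h1]
        · rw [add_sub_cancel_left]
          exact h2
    · rintro hfin ⟨p, q, hpq⟩
      by_cases hd : p ^ 2 / 4 + q = 0
      · have : ProperSpace X := FiniteDimensional.proper ℂ X
        refine commSymm_of_compact (a := p / 2) ?_
          (isCompactOperator_of_locallyCompactSpace_dom _)
        rw [quad_shift hpq, hd, zero_smul]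
      · exact commSymm_of_quad_ne hpq hd
  · intro H _ _ _ T
    rw [hcs' T, commSymm_iff_hilbert T]
    constructor
    · rintro (⟨p, q, h⟩ | ⟨a, h1, h2⟩)
      · exact Or.inl ⟨p, q, h⟩
      · exact Or.inr ⟨a, T - a • 1, by abel, h1, h2⟩
    · rintro (⟨p, q, h⟩ | ⟨a, N, rfl, h1, h2⟩)
      · exact Or.inl ⟨p, q, h⟩
      · refine Or.inr ⟨a, ?_, ?_⟩
        · rw [add_sub_cancel_left, h1]
        · rw [add_sub_cancel_left]
          exact h2

end Pool.Agent.Results.MP_0bd5b4_an.CommutatorSpectrum
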